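import Pool.Agent.Y228.RR.Top

set_option autoImplicit false
set_option linter.unusedSectionVars false
set_option linter.unusedVariables false

/-! # Rees divisors of products of ideals, block by block

If the prime divisor `E` is a Rees divisor of the product of the ideals `I_t`, then it is one of the
product of the ideals `J_b = ∏ I_t`, the product over the `t` in the block `b`, with the products of
the generators as generators. -/

namespace Pool.Agent.H59UC

open MvPowerSeries Pool.Agent.W574.SM Pool.Agent.W574.LM Pool.Agent.W574.HS Pool.Agent.TH192.DT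
  Pool.Agent.H628R4.TP Pool.Agent.Y231.RF Pool.Agent.Y228.RR

variable {σ T B : Type} [Fintype σ] [DecidableEq σ] [Fintype T] [DecidableEq T] [Fintype B]
  [DecidableEq B] {κ : T → Type} [∀ t, Fintype (κ t)] [∀ t, DecidableEq (κ t)]

/-- The products of one generator of `I_t` for each `t` in the block `b`: generators of the product
of the ideals `I_t`, `β t = b`. -/
noncomputable def blockFam (β : T → B) (g : (t : T) → κ t → MvPolynomial σ ℂ) (b : B)
    (J : (t : {t : T // β t = b}) → κ t.1) : MvPolynomial σ ℂ :=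
  ∏ t : {t : T // β t = b}, g t.1 (J t)

theorem sum_blocks (β : T → B) (a : B → ℕ) (m : T → ℕ) :
    ∑ b, a b * ∑ t : {t : T // β t = b}, m t.1 = ∑ t, a (β t) * m t := by
  have h1 : ∀ b, a b * ∑ t : {t : T // β t = b}, m t.1 =
      ∑ t ∈ Finset.univ.filter (fun t => β t = b), a (β t) * m t := by
    intro b
    rw [Finset.mul_sum]
    rw [← Finset.sum_subtype (p := fun t => β t = b) (Finset.univ.filter fun t => β t = b)
      (fun x => by simp) (fun t => a b * m t)]
    refine Finset.sum_congr rfl fun t ht => ?_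
    rw [(Finset.mem_filter.1 ht).2]
  rw [Finset.sum_congr rfl fun b _ => h1 b]
  exact Finset.sum_fiberwise _ _ _

/-- the chart for the block products -/
noncomputable def blockChart (β : T → B) {g : (t : T) → κ t → MvPolynomial σ ℂ} (E : Chart g) :
    Chart (blockFam β g) where
  z := E.z
  ξ := E.ξ
  k := E.k
  m := fun b => ∑ t : {t : T // β t = b}, E.m t.1
  j0 := fun _ t => E.j0 t.1
  jacobian := E.jacobian
  divides := by
    intro b J
    unfold blockFam
    rw [map_prod, ← Finset.prod_pow_eq_pow_sum]
    exact Finset.prod_dvd_prod_of_dvd _ _ fun t _ => E.divides t.1 (J t)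
  attained := by
    intro b
    choose U hU h using E.attained
    refine ⟨∏ t : {t : T // β t = b}, U t.1, ?_, ?_⟩
    · rw [map_prod]
      exact Finset.prod_ne_zero_iff.2 fun t _ => hU t.1
    · unfold blockFam
      rw [map_prod, ← Finset.prod_pow_eq_pow_sum, ← Finset.prod_mul_distrib]
      exact Finset.prod_congr rfl fun t _ => h t.1

theorem blockChart_mul (β : T → B) {g : (t : T) → κ t → MvPolynomial σ ℂ} (E : Chart g)
    (a : B → ℕ) : (blockChart β E).mul a = E.mul fun t => a (β t) :=
  sum_blocks β a E.m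

/-- a combination of the generators of one factor is one of the products -/
theorem block_comb (β : T → B) (g : (t : T) → κ t → MvPolynomial σ ℂ)
    (ξ : σ → MvPowerSeries σ ℂ) (j0 : (t : T) → κ t) (s : T) (c : κ s → ℂ)
    (w : MvPowerSeries σ ℂ)
    (h : ∑ j, c j • MvPolynomial.aeval ξ (g s j) = MvPolynomial.aeval ξ (g s (j0 s)) * w) :
    ∃ c' : ((t : {t : T // β t = β s}) → κ t.1) → ℂ,
      ∑ J, c' J • MvPolynomial.aeval ξ (blockFam β g (β s) J) =
        MvPolynomial.aeval ξ (blockFam β g (β s) fun t => j0 t.1) * w := by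
  classical
  set s' : {t : T // β t = β s} := ⟨s, rfl⟩ with hs'
  let upd : κ s → ((t : {t : T // β t = β s}) → κ t.1) := fun j =>
    Function.update (fun t => j0 t.1) s' j
  have hinj : Function.Injective upd := by
    intro i j hij
    have := congrFun hij s'
    simpa [upd] using this
  refine ⟨fun J => ∑ j, if upd j = J then c j else 0, ?_⟩
  have h1 : ∀ j, MvPolynomial.aeval ξ (blockFam β g (β s) (upd j)) =
      MvPolynomial.aeval ξ (g s j) *
        ∏ t ∈ Finset.univ.erase s', MvPolynomial.aeval ξ (g t.1 (j0 t.1)) := by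
    intro j
    unfold blockFam
    rw [map_prod, ← Finset.mul_prod_erase Finset.univ _ (Finset.mem_univ s')]
    congr 1
    · change MvPolynomial.aeval ξ (g s (Function.update (fun t => j0 t.1) s' j s')) = _
      rw [Function.update_self]
    · refine Finset.prod_congr rfl fun t ht => ?_
      have : t ≠ s' := Finset.ne_of_mem_erase ht
      simp [upd, Function.update_of_ne this]
  have h2 : ∑ J, (∑ j, if upd j = J then c j else 0) •
      MvPolynomial.aeval ξ (blockFam β g (β s) J) =
      ∑ j, c j • MvPolynomial.aeval ξ (blockFam β g (β s) (upd j)) := by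
    simp only [Finset.sum_smul]
    rw [Finset.sum_comm]
    refine Finset.sum_congr rfl fun j _ => ?_
    rw [Finset.sum_eq_single (upd j)]
    · rw [if_pos rfl]
    · intro J _ hJ
      rw [if_neg (Ne.symm hJ), zero_smul]
    · intro hh
      exact absurd (Finset.mem_univ _) hh
  rw [h2]
  have h3 : ∑ j, c j • MvPolynomial.aeval ξ (blockFam β g (β s) (upd j)) =
      (∑ j, c j • MvPolynomial.aeval ξ (g s j)) *
        ∏ t ∈ Finset.univ.erase s', MvPolynomial.aeval ξ (g t.1 (j0 t.1)) := by
    rw [Finset.sum_mul]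
    refine Finset.sum_congr rfl fun j _ => ?_
    rw [h1, smul_mul_assoc]
  rw [h3, h]
  have h4 : MvPolynomial.aeval ξ (blockFam β g (β s) fun t => j0 t.1) =
      MvPolynomial.aeval ξ (g s (j0 s)) *
        ∏ t ∈ Finset.univ.erase s', MvPolynomial.aeval ξ (g t.1 (j0 t.1)) := by
    unfold blockFam
    rw [map_prod, ← Finset.mul_prod_erase Finset.univ _ (Finset.mem_univ s')]
  rw [h4]
  ring

theorem blockChart_isRees (β : T → B) {g : (t : T) → κ t → MvPolynomial σ ℂ} (E : Chart g)
    (A : B → Prop) (h : E.IsRees fun t => A (β t)) : (blockChart β E).IsRees A := by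
  obtain ⟨w, hz, h0, hdet, htype⟩ := h
  refine ⟨w, hz, h0, hdet, fun t ht => ?_⟩
  rcases htype t ht with hq | ⟨s, hA, c, hc⟩
  · exact Or.inl hq
  · obtain ⟨c', hc'⟩ := block_comb β g E.ξ E.j0 s c (w t) hc
    exact Or.inr ⟨β s, hA, c', hc'⟩

theorem fromRees_block (β : T → B) {g : (t : T) → κ t → MvPolynomial σ ℂ} {a : B → ℕ}
    {H : MvPolynomial σ ℂ} {ν N : ℕ} (h : FromRees g (fun t => a (β t)) H ν N) :
    FromRees (blockFam β g) a H ν N := by
  obtain ⟨E, hE, hH, l, p, hl, hp, he⟩ := h
  refine ⟨blockChart β E, blockChart_isRees β E (fun b => a b ≠ 0) hE, hH, l, p, ?_, hp, ?_⟩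
  · rw [blockChart_mul]; exact hl
  · rw [blockChart_mul]; exact he

theorem blockFam_ne (β : T → B) (g : (t : T) → κ t → MvPolynomial σ ℂ)
    (hg : ∀ t, ∃ j, g t j ≠ 0) (b : B) : ∃ J, blockFam β g b J ≠ 0 := by
  choose j hj using hg
  exact ⟨fun t => j t.1, Finset.prod_ne_zero_iff.2 fun t _ => hj t.1⟩

end Pool.Agent.H59UC
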