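import Pool.Agent.TH192.MU.TopZ

set_option autoImplicit false
set_option linter.unusedSectionVars false
set_option linter.unusedVariables false

/-! # The recursion for the motivic zeta functions, every denominator at most once

The zeta functions of the minors lie in the module which is generated over `R[T]` by the products
`∏_{i ∈ s} (𝕃 - 1) / (1 - 𝕃 ^ (-ν_i) T ^ (N_i))` with DIFFERENT levels `i`. -/

namespace Pool.Agent.H59UC.Flag

open MvPolynomial Pool.Agent.W428.MOT Pool.Agent.TH192.DT Pool.Agent.TH192.MT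
  Pool.Agent.TH192.MU

section ring

variable {R : Type} [CommRing R] (u : Rˣ) (q : ℕ → ℤ × ℤ)

/-- The module generated over `R[T]` by the products of different factors
`(u - 1) / (1 - u ^ a T ^ b)`, `(a, b) = q i`, `b > 0`, of the levels `i ≥ d`. -/
noncomputable def flag (d : ℕ) : Submodule R (PowerSeries R) :=
  Submodule.span R {Z | ∃ (k : ℕ) (s : Finset ℕ), (∀ i ∈ s, d ≤ i ∧ 0 < (q i).2) ∧
    Z = PowerSeries.X ^ k * ∏ i ∈ s, (PowerSeries.C ((u : R) - 1) * geoU u (q i).1 (q i).2)}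

theorem flag_anti {d d' : ℕ} (h : d ≤ d') : flag u q d' ≤ flag u q d := by
  refine Submodule.span_mono ?_
  rintro Z ⟨k, s, hs, rfl⟩
  exact ⟨k, s, fun i hi => ⟨h.trans (hs i hi).1, (hs i hi).2⟩, rfl⟩

theorem flag_C {d : ℕ} (c : R) : (PowerSeries.C c : PowerSeries R) ∈ flag u q d := by
  have h1 : (PowerSeries.C c : PowerSeries R) = c • (1 : PowerSeries R) := by
    rw [PowerSeries.smul_eq_C_mul, mul_one]
  rw [h1]
  refine Submodule.smul_mem _ _ (Submodule.subset_span ⟨0, ∅, fun i hi => ?_, ?_⟩)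
  · exact absurd hi (Finset.notMem_empty i)
  · rw [pow_zero, Finset.prod_empty, mul_one]

theorem flag_C_mul {d : ℕ} (c : R) {Z : PowerSeries R} (h : Z ∈ flag u q d) :
    PowerSeries.C c * Z ∈ flag u q d := by
  rw [← PowerSeries.smul_eq_C_mul]
  exact Submodule.smul_mem _ _ h

theorem flag_X_mul {d : ℕ} (k : ℕ) {Z : PowerSeries R} (h : Z ∈ flag u q d) :
    PowerSeries.X ^ k * Z ∈ flag u q d := by
  unfold flag at h
  induction h using Submodule.span_induction with
  | mem x hx =>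
    obtain ⟨l, s, hs, rfl⟩ := hx
    rw [← mul_assoc, ← pow_add]
    exact Submodule.subset_span ⟨k + l, s, hs, rfl⟩
  | zero => rw [mul_zero]; exact Submodule.zero_mem _
  | add x y _ _ hx hy => rw [mul_add]; exact Submodule.add_mem _ hx hy
  | smul c x _ hx => rw [mul_smul_comm]; exact Submodule.smul_mem _ _ hx

theorem flag_geo_mul {d : ℕ} (hd : 0 < (q d).2) {Z : PowerSeries R} (h : Z ∈ flag u q (d + 1)) :
    (PowerSeries.C ((u : R) - 1) * geoU u (q d).1 (q d).2) * Z ∈ flag u q d := by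
  classical
  unfold flag at h
  induction h using Submodule.span_induction with
  | mem x hx =>
    obtain ⟨l, s, hs, rfl⟩ := hx
    have hns : d ∉ s := fun h => by
      have := (hs d h).1
      omega
    refine Submodule.subset_span ⟨l, insert d s, fun i hi => ?_, ?_⟩
    · rcases Finset.mem_insert.1 hi with rfl | hi
      · exact ⟨le_rfl, hd⟩
      · exact ⟨by have := (hs i hi).1; omega, (hs i hi).2⟩
    · rw [Finset.prod_insert hns]
      ring
  | zero => rw [mul_zero]; exact Submodule.zero_mem _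
  | add x y _ _ hx hy => rw [mul_add]; exact Submodule.add_mem _ hx hy
  | smul c x _ hx => rw [mul_smul_comm]; exact Submodule.smul_mem _ _ hx

/-- the geometric series -/
theorem flag_solve {d ν N : ℕ} (hN : 0 < N) (hq : q d = (-(ν : ℤ), (N : ℤ)))
    (Z Z' : PowerSeries R) (h' : Z' ∈ flag u q (d + 1))
    (h : Z = PowerSeries.C ((u : R) - 1) * Z' +
      PowerSeries.C (((u⁻¹ : Rˣ) : R) ^ ν) * PowerSeries.X ^ N * Z) :
    Z ∈ flag u q d := by
  have h1 := geoU_mul u (-(ν : ℤ)) (N : ℤ) (by exact_mod_cast hN)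
  rw [Int.toNat_natCast, ← inv_pow_eq] at h1
  have h2 : Z = (PowerSeries.C ((u : R) - 1) * geoU u (-(ν : ℤ)) (N : ℤ)) * Z' := by
    calc Z = ((1 - PowerSeries.C (((u⁻¹ : Rˣ) : R) ^ ν) * PowerSeries.X ^ N) *
        geoU u (-(ν : ℤ)) (N : ℤ)) * Z := by rw [h1, one_mul]
      _ = geoU u (-(ν : ℤ)) (N : ℤ) * (Z - PowerSeries.C (((u⁻¹ : Rˣ) : R) ^ ν) *
        PowerSeries.X ^ N * Z) := by ring
      _ = geoU u (-(ν : ℤ)) (N : ℤ) * (PowerSeries.C ((u : R) - 1) * Z') := by
        congr 1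
        linear_combination h
      _ = (PowerSeries.C ((u : R) - 1) * geoU u (-(ν : ℤ)) (N : ℤ)) * Z' := by ring
  rw [h2]
  have hN' : 0 < (q d).2 := by
    rw [hq]
    change (0 : ℤ) < (N : ℤ)
    exact_mod_cast hN
  have h3 := flag_geo_mul u q (d := d) hN' h'
  rw [hq] at h3
  exact h3

end ring

section rec

variable {K : Type} [Field K] {T : ℕ} {R : Type} [CommRing R] (u : Rˣ) (M : Meas K R)
  (a : Fin T → ℕ)

/-- All the zeta functions of the system for cones lie in the module `Q`. -/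
def RM (Q : Submodule R (PowerSeries R)) (X : Sys T) : Prop :=
  ∀ (π : Type) [Fintype π] (V : Set (Pt K (π ⊕ (X.ι ⊕ X.Λ)))), Constr V → Gd X V → Cone X V →
    gf a (mm M (((u⁻¹ : Rˣ) : R)) X V) ∈ Q

variable {u M a} (hu : M.L = (u : R))
include hu

/-- the part where a pivot does not vanish -/
theorem rm_piv {Q : Submodule R (PowerSeries R)} {X Y : Sys T} (p : Piv X Y) (hY : RM u M a Q Y)
    (π : Type) [Fintype π] (V : Set (Pt K (π ⊕ (X.ι ⊕ X.Λ)))) (hV : Constr V) (hG : Gd X V)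
    (hC : Cone X V)
    (hU : ∀ v ∈ V, ev (fun q => v (Sum.inr (Sum.inl (p.e (Sum.inl q))))) p.u ≠ 0) :
    gf a (mm M (((u⁻¹ : Rˣ) : R)) X V) ∈ Q := by
  have h1 : mm M (((u⁻¹ : Rˣ) : R)) X V = mm M (((u⁻¹ : Rˣ) : R)) Y (pull p V) :=
    funext fun α => mm_piv p M _ (hv hu) hV hU α
  rw [h1]
  exact hY (π ⊕ p.P) _ (constr_pull p hV) (gd_pull p hG) (cone_pull p hC)

/-- the parts where some pivot does not vanish -/
theorem rm_pivs {Q : Submodule R (PowerSeries R)} {X : Sys T} {B : Type} (Y : B → Sys T)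
    (p : ∀ b, Piv X (Y b)) (hY : ∀ b, RM u M a Q (Y b)) (s : Finset B) :
    ∀ (π : Type) [Fintype π] (V : Set (Pt K (π ⊕ (X.ι ⊕ X.Λ)))), Constr V → Gd X V → Cone X V →
      (∀ v ∈ V, ∃ b ∈ s, ev (fun q => v (Sum.inr (Sum.inl ((p b).e (Sum.inl q))))) (p b).u ≠ 0) →
      gf a (mm M (((u⁻¹ : Rˣ) : R)) X V) ∈ Q := by
  classical
  induction s using Finset.induction_on with
  | empty =>
    intro π _ V hV hG hC h
    rw [gf_empty (a := a) hu ∅ π V]
    · exact Submodule.zero_mem _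
    · rw [Set.eq_empty_iff_forall_notMem]
      intro v hv
      obtain ⟨b, hb, _⟩ := h v hv
      exact absurd hb (Finset.notMem_empty b)
  | insert b s hb ih =>
    intro π _ V hV hG hC h
    set W : Set (Pt K (π ⊕ (X.ι ⊕ X.Λ))) :=
      {v | ev (fun q => v (Sum.inr (Sum.inl ((p b).e (Sum.inl q))))) (p b).u = 0} with hW
    have hWc : Constr W := Constr.eqz (pf_aevalZ (φ := fun (v : Pt K (π ⊕ (X.ι ⊕ X.Λ)))
      (q : (p b).P) => v (Sum.inr (Sum.inl ((p b).e (Sum.inl q))))) (fun i => IsPF.coord _) _)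
    have hWC : Cone X W := cone_origin X fun x => ev (fun q => x ((p b).e (Sum.inl q))) (p b).u = 0
    have hWC' : Cone X Wᶜ :=
      cone_origin X fun x => ¬ ev (fun q => x ((p b).e (Sum.inl q))) (p b).u = 0
    have h1 : V = (V ∩ Wᶜ) ∪ (V ∩ W) := by
      rw [Set.union_comm, Set.inter_union_compl]
    rw [h1, rt_union (D := (∅ : Set (ℤ × ℤ))) hu π (hV.inter hWc.compl) (hV.inter hWc) (by
      rw [Set.disjoint_left]
      rintro v ⟨_, h2⟩ ⟨_, h3⟩
      exact h2 h3)]
    refine Submodule.add_mem _ ?_ ?_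
    · exact rm_piv hu (p b) (hY b) π _ (hV.inter hWc.compl) (fun v hv => hG v hv.1)
        (cone_inter X hC hWC') fun v hv => hv.2
    · refine ih π _ (hV.inter hWc) (fun v hv => hG v hv.1) (cone_inter X hC hWC) fun v hv => ?_
      obtain ⟨b', hb', h2⟩ := h v hv.1
      rcases Finset.mem_insert.1 hb' with rfl | h3
      · exact absurd hv.2 h2
      · exact ⟨b', h3, h2⟩

/-- the part where the origin does not vanish, for a condition which does not depend on the
origin -/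
theorem rm_nz {Q : Submodule R (PowerSeries R)} {X : Sys T} (e : Fin T → ℕ)
    (he : ∀ l, (X.G l).IsHomogeneous (e (X.τ l)))
    (hnz : ∀ (π : Type) [Fintype π] (V : Set (Pt K (π ⊕ (X.ι ⊕ X.Λ)))), Constr V → Gd X V →
      Cone X V → (∀ v ∈ V, ∃ i, v (Sum.inr (Sum.inl i)) ≠ 0) →
      gf a (mm M (((u⁻¹ : Rˣ) : R)) X V) ∈ Q)
    (π : Type) [Fintype π] (V : Set (Pt K (π ⊕ (X.ι ⊕ X.Λ)))) (hV : Constr V) (hG : Gd X V)
    (hC : Cone X V) (s : Finset X.ι) :
    ∃ Z ∈ Q, gf a (mm M (((u⁻¹ : Rˣ) : R)) X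
      (V0 X V ∩ {v | ∃ i ∈ s, v (Sum.inr (Sum.inl i)) ≠ 0})) = PowerSeries.C ((u : R) - 1) * Z := by
  classical
  have hV0 := constr_V0 X hV
  have hG0 := gd_V0 X hG
  have hC0 := cone_V0 X hC
  induction s using Finset.induction_on with
  | empty =>
    refine ⟨0, Submodule.zero_mem _, ?_⟩
    rw [mul_zero, gf_empty (a := a) hu ∅ π _]
    rw [Set.eq_empty_iff_forall_notMem]
    rintro v ⟨_, i, hi, _⟩
    exact absurd hi (Finset.notMem_empty i)
  | insert i s hi ih =>
    obtain ⟨Z, hZ, hZ'⟩ := ih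
    set A : Set (Pt K (π ⊕ (X.ι ⊕ X.Λ))) := V0 X V ∩
      {v | ∃ i ∈ s, v (Sum.inr (Sum.inl i)) ≠ 0} with hA
    set B : Set (Pt K (π ⊕ (X.ι ⊕ X.Λ))) := V0 X V ∩
      {v | (∀ j ∈ s, v (Sum.inr (Sum.inl j)) = 0) ∧ v (Sum.inr (Sum.inl i)) ≠ 0} with hB
    have hAc : Constr A := hV0.inter (Constr.bexFinset s fun j _ =>
      Constr.not (Constr.eqz (IsPF.coord _)))
    have hBc : Constr B := hV0.inter (Constr.and (Constr.ballFinset s fun j _ =>
      Constr.eqz (IsPF.coord _)) (Constr.not (Constr.eqz (IsPF.coord _))))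
    have hAB : V0 X V ∩ {v | ∃ j ∈ insert i s, v (Sum.inr (Sum.inl j)) ≠ 0} = A ∪ B := by
      ext v
      simp only [hA, hB, Set.mem_inter_iff, Set.mem_union, Set.mem_ofPred_eq, Finset.mem_insert]
      constructor
      · rintro ⟨h1, j, hj, hj'⟩
        by_cases h : ∃ i ∈ s, v (Sum.inr (Sum.inl i)) ≠ 0
        · exact Or.inl ⟨h1, h⟩
        · push Not at h
          rcases hj with rfl | hj
          · exact Or.inr ⟨h1, h, hj'⟩
          · exact absurd (h j hj) hj'
      · rintro (⟨h1, j, hj, hj'⟩ | ⟨h1, h2, h3⟩)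
        · exact ⟨h1, j, Or.inr hj, hj'⟩
        · exact ⟨h1, i, Or.inl rfl, h3⟩
    have hdis : Disjoint A B := by
      rw [Set.disjoint_left]
      rintro v ⟨_, j, hj, hj'⟩ ⟨_, h2, _⟩
      exact hj' (h2 j hj)
    have hB1 : ∀ α, mm M (((u⁻¹ : Rˣ) : R)) X B α = ((u : R) - 1) *
        mm M (((u⁻¹ : Rˣ) : R)) X (B ∩ {w | w (Sum.inr (Sum.inl i)) = 1}) α := by
      intro α
      rw [← hu]
      refine mm_gm M _ X e he hBc i (fun w hw => hw.2.2) ?_ α
      rintro w ⟨hw1, hw2, hw3⟩ c hc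
      refine ⟨?_, fun j hj => ?_, ?_⟩
      · exact hC _ hw1 (fun t => c ^ e t) fun t => pow_ne_zero _ hc
      · change c * w (Sum.inr (Sum.inl j)) = 0
        rw [hw2 j hj, mul_zero]
      · change c * w (Sum.inr (Sum.inl i)) ≠ 0
        exact mul_ne_zero hc hw3
    have hB2 : gf a (mm M (((u⁻¹ : Rˣ) : R)) X B) = PowerSeries.C ((u : R) - 1) *
        gf a (mm M (((u⁻¹ : Rˣ) : R)) X (B ∩ {w | w (Sum.inr (Sum.inl i)) = 1})) := by
      ext l
      rw [PowerSeries.coeff_C_mul]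
      unfold gf
      rw [PowerSeries.coeff_mk, PowerSeries.coeff_mk, Finset.mul_sum]
      exact Finset.sum_congr rfl fun α _ => hB1 α
    refine ⟨Z + gf a (mm M (((u⁻¹ : Rˣ) : R)) X (B ∩ {w | w (Sum.inr (Sum.inl i)) = 1})),
      Submodule.add_mem _ hZ ?_, ?_⟩
    · refine hnz π _ (hBc.inter (Constr.eq (IsPF.coord _) IsPF.one))
        (fun v hv => hG0 v hv.1.1) (cone_inter X (cone_inter X hC0 ?_) ?_)
        fun v hv => ⟨i, hv.1.2.2⟩
      · exact cone_origin X fun x => (∀ j ∈ s, x j = 0) ∧ x i ≠ 0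
      · exact cone_origin X fun x => x i = 1
    · rw [hAB, rt_union (D := (∅ : Set (ℤ × ℤ))) hu π hAc hBc hdis, hZ', hB2, mul_add]

theorem rm_step {q : ℕ → ℤ × ℤ} {d : ℕ} {X : Sys T} (ha : ∀ t, 0 < a t)
    (e : Fin T → ℕ) (he : ∀ l, (X.G l).IsHomogeneous (e (X.τ l))) {B : Type} [Fintype B]
    (Y : B → Sys T) (p : ∀ b, Piv X (Y b)) (hY : ∀ b, RM u M a (flag u q (d + 1)) (Y b))
    (cov : ∀ x : X.ι → AlgebraicClosure K, x ≠ 0 →
      ∃ b, ev (fun q => x ((p b).e (Sum.inl q))) (p b).u ≠ 0)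
    (hD : q d = (-(Fintype.card X.ι : ℤ), ((∑ t, a t * e t : ℕ) : ℤ))) :
    RM u M a (flag u q d) X := by
  classical
  intro π _ V hV hG hC
  by_cases hN : 0 < ∑ t, a t * e t
  · have hnz : ∀ (π : Type) [Fintype π] (V : Set (Pt K (π ⊕ (X.ι ⊕ X.Λ)))), Constr V → Gd X V →
        Cone X V → (∀ v ∈ V, ∃ i, v (Sum.inr (Sum.inl i)) ≠ 0) →
        gf a (mm M (((u⁻¹ : Rˣ) : R)) X V) ∈ flag u q (d + 1) := by
      intro π _ V hV hG hC hnz
      refine rm_pivs hu Y p hY Finset.univ π _ hV hG hC fun v hv => ?_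
      obtain ⟨b, hb⟩ := cov (fun i => v (Sum.inr (Sum.inl i))) (by
        intro h
        obtain ⟨i, hi⟩ := hnz v hv
        exact hi (congrFun h i))
      exact ⟨b, Finset.mem_univ b, hb⟩
    -- the set where the origin vanishes
    set Z : Set (Pt K (π ⊕ (X.ι ⊕ X.Λ))) := {v | ∀ i, v (Sum.inr (Sum.inl i)) = 0} with hZ
    have hZc : Constr Z := Constr.all fun i => Constr.eqz (IsPF.coord _)
    have hdec : ∀ V : Set (Pt K (π ⊕ (X.ι ⊕ X.Λ))), Constr V → Gd X V →
        gf a (mm M (((u⁻¹ : Rˣ) : R)) X V) = gf a (mm M (((u⁻¹ : Rˣ) : R)) X (V ∩ Zᶜ)) +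
          PowerSeries.C (((u⁻¹ : Rˣ) : R) ^ Fintype.card X.ι) *
            PowerSeries.X ^ (∑ t, a t * e t) * gf a (mm M (((u⁻¹ : Rˣ) : R)) X (V0 X V)) := by
      intro V hV hG
      have h1 : V = (V ∩ Zᶜ) ∪ (V ∩ Z) := by
        rw [Set.union_comm, Set.inter_union_compl]
      conv_lhs => rw [h1, rt_union (D := (∅ : Set (ℤ × ℤ))) hu π (hV.inter hZc.compl)
        (hV.inter hZc) (by
        rw [Set.disjoint_left]
        rintro v ⟨_, h2⟩ ⟨_, h3⟩
        exact h2 h3)]
      congr 1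
      refine gf_shift a ha e _ _ _ (fun α hα => ?_) fun β => ?_
      · exact mm_scale_zero M _ X e he (fun v hv => hG v hv.1) (fun v hv => hv.2) α hα
      · rw [mm_scale M _ (hv hu) X e he (hV.inter hZc) (fun v hv => hv.2)]
        have h2 : V0 X (V ∩ Z) = V0 X V := by
          ext v
          exact ⟨fun h => h.1, fun h => ⟨h, fun _ => rfl⟩⟩
        rw [h2]
    have hCZ : Cone X Zᶜ := cone_origin X fun x => ¬ ∀ i, x i = 0
    rw [hdec V hV hG]
    refine Submodule.add_mem _ (flag_anti u q (Nat.le_succ d)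
      (hnz π _ (hV.inter hZc.compl) (fun v hv => hG v hv.1)
      (cone_inter X hC hCZ) fun v hv => not_forall.1 hv.2)) ?_
    rw [mul_assoc]
    refine flag_C_mul u q _ (flag_X_mul u q _ ?_)
    have h3 := hdec (V0 X V) (constr_V0 X hV) (gd_V0 X hG)
    rw [V0_V0 hu] at h3
    obtain ⟨Z', hZ', h4⟩ := rm_nz (a := a) hu e he hnz π V hV hG hC Finset.univ
    have h5 : V0 X V ∩ {v | ∃ i ∈ (Finset.univ : Finset X.ι), v (Sum.inr (Sum.inl i)) ≠ 0} =
        V0 X V ∩ Zᶜ := by
      ext v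
      simp only [hZ, Set.mem_inter_iff, Set.mem_compl_iff, Set.mem_ofPred_eq, Finset.mem_univ,
        true_and, not_forall]
    rw [h5] at h4
    rw [h4] at h3
    exact flag_solve u q hN hD _ _ hZ' h3
  · have he0 : ∀ t, e t = 0 := by
      intro t
      have h1 : ∑ t, a t * e t = 0 := by omega
      have h2 := (Finset.sum_eq_zero_iff.1 h1) t (Finset.mem_univ t)
      rcases Nat.mul_eq_zero.1 h2 with h3 | h3
      · exact absurd h3 (ha t).ne'
      · exact h3
    rw [gf_const a ha]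
    · exact flag_C u q _
    · rintro α ⟨t, ht⟩
      have h2 : SS X V α (∑ t, α t) = ∅ := by
        rw [Set.eq_empty_iff_forall_notMem]
        intro z hz
        obtain ⟨l, hl, hl'⟩ := hG _ hz.2 t
        apply hl'
        have h3 : (X.G l).totalDegree = 0 := by
          have h4 := (he l).totalDegree_le
          rw [he0] at h4
          omega
        rw [totalDegree_eq_zero_iff_eq_C] at h3
        rw [dat_lam, lam, h3, ev_C, ← map_intCast (PowerSeries.C (R := AlgebraicClosure K)),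
          PowerSeries.coeff_C, if_neg (by rw [hl]; exact ht)]
      unfold mm
      rw [h2, Pool.Agent.W375.MT.chi_empty, zero_mul]

/-- change of the generators -/
theorem rm_change {Q : Submodule R (PowerSeries R)} {Xs Ys : Sys T} (e : Ys.ι ≃ Xs.ι)
    (H : ∀ (A : Type) [CommRing A] (x : Xs.ι → A) (t : Fin T),
      fI Xs x t = fI Ys (fun y => x (e y)) t) (hY : RM u M a Q Ys) : RM u M a Q Xs := by
  obtain ⟨p, hp⟩ := mkPiv Xs Ys Empty ((Equiv.emptySum Empty Ys.ι).trans e) 1 (fun _ => 0) (by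
    intro A _ x x' _ h t
    have h1 : x' = fun y => x (e y) := by
      funext y
      have h2 := h y
      rw [map_one, one_mul, one_mul, map_zero, sub_zero] at h2
      exact h2
    rw [h1]
    exact H A x t)
  intro π _ V hV hG hC
  refine rm_piv hu p hY π V hV hG hC fun v _ => ?_
  rw [hp _ (fun i => v (Sum.inr (Sum.inl i))), map_one]
  exact one_ne_zero

end rec

/-- the pair `(-ν_d, N_d)` -/
def lev {T : ℕ} (ν : ℕ → ℕ) (p a : Fin T → ℕ) (d : ℕ) : ℤ × ℤ :=
  (-(ν d : ℤ), ((∑ t, a t * (p t - d) : ℕ) : ℤ))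

/-- **Rationality, with every denominator at most once.** -/
theorem tw_rm {K : Type} [Field K] {T : ℕ} {R : Type} [CommRing R] {u : Rˣ} {M : Meas K R}
    (hu : M.L = (u : R)) {a : Fin T → ℕ} (ha : ∀ t, 0 < a t) {ν : ℕ → ℕ} {p : Fin T → ℕ}
    {X : Sys T} {d : ℕ} (h : Tw ν p X d) : RM u M a (flag u (lev ν p a) d) X := by
  induction h with
  | mk X d hν hom B fB Y δ hδ pv cov h ih =>
    refine rm_step hu ha (fun t => p t - d) hom Y pv (fun b => ?_)
      (cov (AlgebraicClosure K)) ?_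
    · intro π _ V hV hG hC
      exact flag_anti u _ (Nat.add_le_add_left (hδ b) _) (ih b π V hV hG hC)
    · rw [hν]
      rfl

end Pool.Agent.H59UC.Flag
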