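import Pool.Agent.TH192.DT.TopZ

set_option autoImplicit false

/-! # Zeta functions with pairwise different candidate poles have simple poles -/

namespace Pool.Agent.H59UC

open Polynomial Pool.Agent.TH192.DT

/-- the linear polynomial `N s + ν` -/
noncomputable def lin (N ν : ℕ) : ℂ[X] := C (N : ℂ) * X + C (ν : ℂ)

theorem lin_map (N ν : ℕ) : algebraMap ℂ[X] (RatFunc ℂ) (lin N ν) =
    (N : RatFunc ℂ) * RatFunc.X + (ν : RatFunc ℂ) := by
  unfold lin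
  simp

theorem lin_ne {N ν : ℕ} (hν : 0 < ν) : lin N ν ≠ 0 := by
  intro h
  have h1 := congrArg (Polynomial.eval 0) h
  unfold lin at h1
  simp at h1
  omega

theorem lin_coprime {N ν N' ν' : ℕ} (hν : 0 < ν) (hν' : 0 < ν')
    (h : 0 < N → 0 < N' → ν * N' ≠ ν' * N) : IsCoprime (lin N ν) (lin N' ν') := by
  have hunit : ∀ {M μ : ℕ}, 0 < μ → M = 0 → IsUnit (lin M μ) := by
    intro M μ hμ hM
    subst hM
    unfold lin
    rw [Nat.cast_zero, map_zero, zero_mul, zero_add]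
    exact isUnit_C.2 (IsUnit.mk0 _ (by exact_mod_cast hμ.ne'))
  rcases Nat.eq_zero_or_pos N with hN | hN
  · exact (isCoprime_one_left.of_isCoprime_of_dvd_left (hunit hν hN).dvd)
  rcases Nat.eq_zero_or_pos N' with hN' | hN'
  · exact (isCoprime_one_right.of_isCoprime_of_dvd_right (hunit hν' hN').dvd)
  have hne : ((ν : ℂ) * N' - ν' * N) ≠ 0 := by
    intro h0
    apply h hN hN'
    have h1 : (ν : ℂ) * N' = ν' * N := by linear_combination h0
    exact_mod_cast h1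
  refine ⟨C ((N' : ℂ) / (ν * N' - ν' * N)), C (-(N : ℂ) / (ν * N' - ν' * N)), ?_⟩
  unfold lin
  have e1 : (C ((N' : ℂ) / (ν * N' - ν' * N)) * (C (N : ℂ) * X + C (ν : ℂ)) +
      C (-(N : ℂ) / (ν * N' - ν' * N)) * (C (N' : ℂ) * X + C (ν' : ℂ))) =
      C (((N' : ℂ) / (ν * N' - ν' * N)) * N + (-(N : ℂ) / (ν * N' - ν' * N)) * N') * X +
      C (((N' : ℂ) / (ν * N' - ν' * N)) * ν + (-(N : ℂ) / (ν * N' - ν' * N)) * ν') := by
    simp only [C_add, C_mul]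
    ring
  rw [e1]
  have e2 : ((N' : ℂ) / (ν * N' - ν' * N)) * N + (-(N : ℂ) / (ν * N' - ν' * N)) * N' = 0 := by
    field_simp
    ring
  have e3 : ((N' : ℂ) / (ν * N' - ν' * N)) * ν + (-(N : ℂ) / (ν * N' - ν' * N)) * ν' = 1 := by
    rw [div_mul_eq_mul_div, div_mul_eq_mul_div, ← add_div, div_eq_one_iff_eq hne]
    ring
  rw [e2, e3, C_0, C_1]
  ring

theorem lin_dvd {N ν : ℕ} (hν : 0 < ν) (b : ℂ[X]) (h : 0 < N → b.eval (-(ν : ℂ) / N) = 0) :
    lin N ν ∣ b := by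
  rcases Nat.eq_zero_or_pos N with hN | hN
  · subst hN
    apply IsUnit.dvd
    unfold lin
    rw [Nat.cast_zero, map_zero, zero_mul, zero_add]
    exact isUnit_C.2 (IsUnit.mk0 _ (by exact_mod_cast hν.ne'))
  · have h1 : (X - C (-(ν : ℂ) / N)) ∣ b := dvd_iff_isRoot.2 (h hN)
    have hN0 : (N : ℂ) ≠ 0 := by exact_mod_cast hN.ne'
    have h2 : lin N ν = C (N : ℂ) * (X - C (-(ν : ℂ) / N)) := by
      unfold lin
      rw [mul_sub, ← C_mul]
      have : (N : ℂ) * (-(ν : ℂ) / N) = -ν := by field_simp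
      rw [this, C_neg]
      ring
    rw [h2]
    obtain ⟨q, hq⟩ := h1
    refine ⟨C ((N : ℂ)⁻¹) * q, ?_⟩
    calc b = (X - C (-(ν : ℂ) / N)) * q := hq
      _ = (C (N : ℂ) * C ((N : ℂ)⁻¹)) * ((X - C (-(ν : ℂ) / N)) * q) := by
          rw [← C_mul, mul_inv_cancel₀ hN0, C_1, one_mul]
      _ = _ := by ring

/-- **If the numbers `-ν_i / N_i` with `N_i > 0` are roots of `b` and pairwise different, then the
product of `b` and of the zeta function is a polynomial.** -/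
theorem simple_mul {ι : Type} [Fintype ι] (ν N : ι → ℕ) (χ : Finset ι → ℤ) (hν : ∀ i, 0 < ν i)
    (b : ℂ[X]) (hroot : ∀ i, 0 < N i → b.eval (-(ν i : ℂ) / N i) = 0)
    (hdist : ∀ i j, 0 < N i → 0 < N j → i ≠ j → ν i * N j ≠ ν j * N i) :
    ∃ P : ℂ[X], algebraMap ℂ[X] (RatFunc ℂ) b * topZ ν N χ = algebraMap ℂ[X] (RatFunc ℂ) P := by
  classical
  have key : ∀ J : Finset ι, ∃ Q : ℂ[X], algebraMap ℂ[X] (RatFunc ℂ) b *
      ∏ i ∈ J, ((N i : RatFunc ℂ) * RatFunc.X + (ν i : RatFunc ℂ))⁻¹ =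
        algebraMap ℂ[X] (RatFunc ℂ) Q := by
    intro J
    have hdvd : ∏ i ∈ J, lin (N i) (ν i) ∣ b := by
      refine Finset.prod_dvd_of_coprime ?_ fun i _ => lin_dvd (hν i) b (hroot i)
      intro i _ j _ hij
      exact lin_coprime (hν i) (hν j) fun h1 h2 => hdist i j h1 h2 hij
    obtain ⟨Q, hQ⟩ := hdvd
    refine ⟨Q, ?_⟩
    have h0 : ∏ i ∈ J, algebraMap ℂ[X] (RatFunc ℂ) (lin (N i) (ν i)) ≠ 0 := by
      refine Finset.prod_ne_zero_iff.2 fun i _ => ?_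
      intro h
      exact lin_ne (hν i) ((map_eq_zero_iff _ (RatFunc.algebraMap_injective ℂ)).1 h)
    rw [Finset.prod_inv_distrib]
    simp only [← lin_map]
    rw [hQ, map_mul, map_prod]
    rw [mul_comm (∏ i ∈ J, _) (algebraMap ℂ[X] (RatFunc ℂ) Q), mul_assoc, mul_inv_cancel₀ h0,
      mul_one]
  choose Q hQ using key
  refine ⟨∑ J, C ((χ J : ℤ) : ℂ) * Q J, ?_⟩
  unfold topZ
  rw [Finset.mul_sum, map_sum]
  refine Finset.sum_congr rfl fun J _ => ?_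
  rw [map_mul, ← hQ J]
  have : algebraMap ℂ[X] (RatFunc ℂ) (C ((χ J : ℤ) : ℂ)) = RatFunc.C ((χ J : ℤ) : ℂ) := by
    rw [RatFunc.algebraMap_C]
  rw [this]
  ring

end Pool.Agent.H59UC
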