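import Pool.Agent.H59UC.Flag
import Pool.Agent.H59UC.Simple

set_option autoImplicit false
set_option linter.unusedSectionVars false
set_option linter.unusedVariables false

/-! # Topological zeta functions of the products of determinantal ideals: simple poles -/

namespace Pool.Agent.H59UC.Flag

open MvPolynomial Matrix Pool.Agent.W428.MOT Pool.Agent.TH192.DT Pool.Agent.TH192.MT
  Pool.Agent.TH192.MU Pool.Agent.TH192.PA Pool.Agent.Helper929 Pool.Agent.W574.SM

/-- **The zeta functions of the minors.** -/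
theorem top_rm {K : Type} [Field K] (S : MSpace) {T : ℕ} {R : Type} [CommRing R] {u : Rˣ}
    {M : Meas K R} (hu : M.L = (u : R)) (p a : Fin T → ℕ) (ha : ∀ t, 0 < a t) :
    RM u M a (flag u (lev S.codim p a) 0) (topSys S p) := by
  cases S with
  | gen m n =>
    have h1 := tw_rm (K := K) (M := M) hu ha (tw_gen m n p m 0 (Fin m) (Fin n)
      (Fintype.card_fin m) (by rw [Fintype.card_fin, Nat.sub_zero])
      (by rw [Fintype.card_fin, Nat.sub_zero]))
    refine rm_change (Xs := topSys (MSpace.gen m n) p)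
      (Ys := mSys (gM (Fin m) (Fin n)) fun t => p t - 0) hu (Equiv.refl _) ?_ h1
    intro A _ x t
    refine Eq.trans ?_ (fI_mSys (gM (Fin m) (Fin n)) (fun t => p t - 0) x t).symm
    have key : ∀ l : (topSys (MSpace.gen m n) p).Λ, ev x ((topSys (MSpace.gen m n) p).G l) =
        (((gM (Fin m) (Fin n)).map (ev x)).submatrix l.2.1 l.2.2).det := by
      intro l
      exact RingHom.map_det (ev x) ((gM (Fin m) (Fin n)).submatrix l.2.1 l.2.2)
    refine le_antisymm (Ideal.span_le.2 ?_) (minI_sorted _ _ fun r c => ?_)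
    · rintro y ⟨l, rfl, rfl⟩
      rw [SetLike.mem_coe, key l]
      exact det_mem _ _ _
    · exact Ideal.subset_span ⟨⟨t, (r, c)⟩, rfl, (key ⟨t, (r, c)⟩).symm⟩
  | sym n =>
    have h1 := tw_rm (K := K) (M := M) hu ha (tw_sym n p n 0 (Fin n)
      (Fintype.card_fin n) (by rw [Fintype.card_fin, Nat.sub_zero]))
    refine rm_change (Xs := topSys (MSpace.sym n) p)
      (Ys := mSys (sM (Fin n)) fun t => p t - 0) hu (Equiv.refl _) ?_ h1
    intro A _ x t
    refine Eq.trans ?_ (fI_mSys (sM (Fin n)) (fun t => p t - 0) x t).symm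
    have key : ∀ l : (topSys (MSpace.sym n) p).Λ, ev x ((topSys (MSpace.sym n) p).G l) =
        (((sM (Fin n)).map (ev x)).submatrix l.2.1 l.2.2).det := by
      intro l
      exact RingHom.map_det (ev x) ((sM (Fin n)).submatrix l.2.1 l.2.2)
    refine le_antisymm (Ideal.span_le.2 ?_) (minI_sorted _ _ fun r c => ?_)
    · rintro y ⟨l, rfl, rfl⟩
      rw [SetLike.mem_coe, key l]
      exact det_mem _ _ _
    · exact Ideal.subset_span ⟨⟨t, (r, c)⟩, rfl, (key ⟨t, (r, c)⟩).symm⟩
  | skew n =>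
    have h1 := tw_rm (K := K) (M := M) hu ha (tw_skew n p n 0 (Fin n)
      (Fintype.card_fin n) (by rw [Fintype.card_fin, Nat.mul_zero, Nat.sub_zero]))
    refine rm_change (Xs := topSys (MSpace.skew n) p)
      (Ys := kSys (kM (Fin n)) fun t => p t - 0) hu (Equiv.refl _) ?_ h1
    intro A _ x t
    refine Eq.trans ?_ (fI_kSys (kM (Fin n)) (fun t => p t - 0) x t).symm
    have key : ∀ (t : Fin T) (r : Fin (2 * p t) ↪o Fin n),
        ev x ((topSys (MSpace.skew n) p).G ⟨t, r⟩) =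
        pf (2 * p t) (((kM (Fin n)).map (ev x)).submatrix r r) := by
      intro t r
      exact pf_map (ev x) (2 * p t) ((kM (Fin n)).submatrix r r)
    refine le_antisymm (Ideal.span_le.2 ?_) (pfI_sorted _ (kM_alt x) _ fun r => ?_)
    · rintro y ⟨⟨t', r⟩, ht, rfl⟩
      have ht' : t' = t := ht
      subst ht'
      rw [SetLike.mem_coe, key t' r]
      exact pf_mem _ _
    · exact Ideal.subset_span ⟨⟨t, r⟩, rfl, (key t r).symm⟩

theorem zetaId_flag (S : MSpace) (T : ℕ) (p : Fin T → ℕ) :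
    zetaId (fun j => map (Int.castRingHom ℂ) (detProd S p j)) ∈
      flag (Lu ℂ) (lev S.codim p fun _ => 1) 0 := by
  obtain ⟨M, hL, hM⟩ := exists_meas ℂ
  have hW : Constr (Set.univ : Set (Pt ℂ S.Var)) := Constr.univ
  have hC : Cone (topSys S p) (VI (K := ℂ) (topSys S p) Set.univ) := by
    rintro v ⟨h1, h2⟩ μ hμ
    refine ⟨trivial, fun t => ?_⟩
    obtain ⟨l, hl, hl'⟩ := h2 t
    exact ⟨l, hl, mul_ne_zero (hμ _) hl'⟩
  have h1 := top_rm S hL p (fun _ => 1) (fun _ => Nat.one_pos) Empty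
    (VI (topSys S p) Set.univ) (constr_VI (topSys S p) hW) (gd_VI (topSys S p) Set.univ) hC
  rw [← zetaI_eq M _ (hv hL) (topSys S p) hW] at h1
  have h2 : zetaId (fun j => map (Int.castRingHom ℂ) (detProd S p j)) =
      PowerSeries.mk fun N => M.χ ((topSys S p).ι × Fin (N + 1))
      (JetF (fun c => map (Int.castRingHom ℂ) (gX (topSys S p) c)) Set.univ N) *
        (((Lu ℂ)⁻¹ : (MK ℂ)ˣ) : MK ℂ) ^ (N * Fintype.card (topSys S p).ι) := by
    unfold zetaId
    congr 1
    funext N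
    rw [hM, inv_pow_eq, jetF_prods, Nat.mul_comm]
  rw [h2]
  exact h1

section spec

variable {R : Type} [CommRing R] [IsDomain R] {u : Rˣ} {ε : R →+* ℂ}

/-- the value of one factor -/
theorem specAt_factor {R₀ : Type} [CommRing R₀] (u₀ : R₀ˣ) (E : R₀ →+* R)
    (hE : E (u₀ : R₀) = (u : R)) (h1 : ε (u : R) = 1) (hu : (u : R) ≠ 1) (q : ℤ × ℤ)
    (hq1 : q.1 < 0) (hq2 : 0 < q.2) (s : ℕ) :
    SpecAt u ε (PowerSeries.map E (PowerSeries.C ((u₀ : R₀) - 1) * geoU u₀ q.1 q.2)) s
      (1 / ((q.2 : ℂ) * s - q.1)) := by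
  refine specAt_geo h1 hu hq1 hq2 ?_ s
  have h2 := congrArg (PowerSeries.map E) (geoU_mul u₀ q.1 q.2 hq2)
  simp only [map_mul, map_sub, map_one, PowerSeries.map_C, map_pow, PowerSeries.map_X] at h2
  have h3 : E ((u₀ ^ q.1 : R₀ˣ) : R₀) = ((u ^ q.1 : Rˣ) : R) := by
    have h4 : Units.map (E : R₀ →* R) u₀ = u := Units.ext hE
    rw [← h4, ← map_zpow]
    rfl
  rw [h3] at h2
  rw [map_mul, PowerSeries.map_C, map_sub, hE, map_one]
  linear_combination (PowerSeries.C ((u : R) - 1)) * h2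

/-- **The values of a series of the module, with the common denominator
`∏_{i ∈ S} (N_i s + ν_i)`.** -/
theorem specAt_flag {R₀ : Type} [CommRing R₀] (u₀ : R₀ˣ) (E : R₀ →+* R)
    (hE : E (u₀ : R₀) = (u : R)) (h1 : ε (u : R) = 1) (hu : (u : R) ≠ 1) (ν N : ℕ → ℕ)
    (S : Finset ℕ) (hS : ∀ i, 0 < N i → i ∈ S ∧ 0 < ν i) {Z : PowerSeries R₀}
    (hZ : Z ∈ flag u₀ (fun i => (-(ν i : ℤ), (N i : ℤ))) 0) :
    ∃ g : Polynomial ℂ, ∀ s : ℕ, 0 < s → ∃ c, SpecAt u ε (PowerSeries.map E Z) s c ∧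
      g.eval (s : ℂ) = c * (∏ i ∈ S.filter (fun i => 0 < N i),
        Pool.Agent.H59UC.lin (N i) (ν i)).eval (s : ℂ) := by
  classical
  have hlin : ∀ (i s : ℕ), (Pool.Agent.H59UC.lin (N i) (ν i)).eval (s : ℂ) =
      (N i : ℂ) * s + ν i := by
    intro i s
    unfold Pool.Agent.H59UC.lin
    simp
  unfold flag at hZ
  induction hZ using Submodule.span_induction with
  | mem x hx =>
    obtain ⟨k, t, ht, rfl⟩ := hx
    have ht' : t ⊆ S.filter fun i => 0 < N i := by
      intro i hi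
      have h2 : (0 : ℤ) < (N i : ℤ) := (ht i hi).2
      have h3 : 0 < N i := by exact_mod_cast h2
      exact Finset.mem_filter.2 ⟨(hS i h3).1, h3⟩
    refine ⟨∏ i ∈ (S.filter fun i => 0 < N i) \ t, Pool.Agent.H59UC.lin (N i) (ν i),
      fun s hs => ⟨∏ i ∈ t, (1 / ((N i : ℂ) * s + ν i)), ?_, ?_⟩⟩
    · rw [map_mul, map_pow, PowerSeries.map_X, map_prod]
      have hX : ∀ k : ℕ, SpecAt u ε ((PowerSeries.X : PowerSeries R) ^ k) s 1 := by
        intro k
        induction k with
        | zero =>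
          have := specAt_C (u := u) (ε := ε) 1 s
          rw [map_one, map_one] at this
          rwa [pow_zero]
        | succ k ih =>
          have := specAt_mul ih (specAt_X h1 s)
          rwa [← pow_succ, one_mul] at this
      have hP : ∀ t : Finset ℕ, (∀ i ∈ t, 0 < N i) → SpecAt u ε (∏ i ∈ t, PowerSeries.map E
          (PowerSeries.C ((u₀ : R₀) - 1) * geoU u₀ (-(ν i : ℤ)) (N i : ℤ))) s
          (∏ i ∈ t, (1 / ((N i : ℂ) * s + ν i))) := by
        intro t
        induction t using Finset.induction_on with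
        | empty =>
          intro _
          have := specAt_C (u := u) (ε := ε) 1 s
          rw [map_one, map_one] at this
          rwa [Finset.prod_empty, Finset.prod_empty]
        | insert i t hi ih =>
          intro h
          rw [Finset.prod_insert hi, Finset.prod_insert hi]
          refine specAt_mul ?_ (ih fun j hj => h j (Finset.mem_insert_of_mem hj))
          have h3 : 0 < N i := h i (Finset.mem_insert_self _ _)
          have h4 := specAt_factor (ε := ε) u₀ E hE h1 hu (-(ν i : ℤ), (N i : ℤ))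
            (by have := (hS i h3).2; change -(ν i : ℤ) < 0; omega)
            (by change (0 : ℤ) < (N i : ℤ); exact_mod_cast h3) s
          have h5 : (1 : ℂ) / ((((N i : ℤ) : ℂ)) * s - ((-(ν i : ℤ) : ℤ) : ℂ)) =
              1 / ((N i : ℂ) * s + ν i) := by
            push_cast
            ring_nf
          rw [← h5]
          exact h4
      have h6 := specAt_mul (hX k) (hP t fun i hi => by
        have h2 : (0 : ℤ) < (N i : ℤ) := (ht i hi).2
        exact_mod_cast h2)
      rwa [one_mul] at h6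
    · rw [← Finset.prod_sdiff ht', Polynomial.eval_mul]
      have h7 : (∏ i ∈ t, Pool.Agent.H59UC.lin (N i) (ν i)).eval (s : ℂ) =
          ∏ i ∈ t, ((N i : ℂ) * s + ν i) := by
        rw [Polynomial.eval_prod]
        exact Finset.prod_congr rfl fun i _ => hlin i s
      have h8 : (∏ i ∈ t, (1 / ((N i : ℂ) * s + ν i))) * ∏ i ∈ t, ((N i : ℂ) * s + ν i) = 1 := by
        rw [← Finset.prod_mul_distrib]
        refine Finset.prod_eq_one fun i hi => ?_
        have h3 : 0 < N i := (Finset.mem_filter.1 (ht' hi)).2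
        have h9 : ((N i : ℂ) * s + ν i) ≠ 0 := by
          have : 0 < N i * s + ν i := by
            have := Nat.mul_pos h3 hs
            omega
          exact_mod_cast this.ne'
        rw [one_div, inv_mul_cancel₀ h9]
      rw [h7]
      calc _ = (∏ i ∈ (S.filter fun i => 0 < N i) \ t,
            Pool.Agent.H59UC.lin (N i) (ν i)).eval (s : ℂ) *
            ((∏ i ∈ t, (1 / ((N i : ℂ) * s + ν i))) * ∏ i ∈ t, ((N i : ℂ) * s + ν i)) := by
              rw [h8, mul_one]
        _ = _ := by ring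
  | zero =>
    refine ⟨0, fun s _ => ⟨0, ?_, by simp⟩⟩
    have := specAt_C (u := u) (ε := ε) 0 s
    rw [map_zero, map_zero] at this
    rwa [map_zero]
  | add x y _ _ hx hy =>
    obtain ⟨g, hg⟩ := hx
    obtain ⟨g', hg'⟩ := hy
    refine ⟨g + g', fun s hs => ?_⟩
    obtain ⟨c, hc, hc'⟩ := hg s hs
    obtain ⟨d, hd, hd'⟩ := hg' s hs
    refine ⟨c + d, ?_, ?_⟩
    · rw [map_add]
      exact specAt_add hc hd
    · rw [Polynomial.eval_add, hc', hd', add_mul]
  | smul r x _ hx =>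
    obtain ⟨g, hg⟩ := hx
    refine ⟨Polynomial.C (ε (E r)) * g, fun s hs => ?_⟩
    obtain ⟨c, hc, hc'⟩ := hg s hs
    refine ⟨ε (E r) * c, ?_, ?_⟩
    · rw [PowerSeries.smul_eq_C_mul, map_mul, PowerSeries.map_C]
      exact specAt_mul (specAt_C (E r) s) hc
    · rw [Polynomial.eval_mul, Polynomial.eval_C, hc']
      ring

end spec

/-- **The topological zeta function is a sum of terms in which every denominator occurs at most
once.** -/
theorem topZeta_flag {R : Type} [CommRing R] [IsDomain R] (E : MK ℂ →+* R) (ε : R →+* ℂ)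
    (h1 : ε (E ((Lu ℂ : (MK ℂ)ˣ) : MK ℂ)) = 1) (hu : E ((Lu ℂ : (MK ℂ)ˣ) : MK ℂ) ≠ 1)
    (ν N : ℕ → ℕ) (S : Finset ℕ) (hS : ∀ i, 0 < N i → i ∈ S ∧ 0 < ν i)
    {Zm : PowerSeries (MK ℂ)}
    (hZ : Zm ∈ flag (Lu ℂ) (fun i => (-(ν i : ℤ), (N i : ℤ))) 0) :
    ∃ (Z : RatFunc ℂ) (g : Polynomial ℂ), IsTopZeta E ε Zm Z ∧
      (∀ Z', IsTopZeta E ε Zm Z' → Z' = Z) ∧
      Z * algebraMap (Polynomial ℂ) (RatFunc ℂ) (∏ i ∈ S.filter (fun i => 0 < N i),
        Pool.Agent.H59UC.lin (N i) (ν i)) = algebraMap (Polynomial ℂ) (RatFunc ℂ) g := by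
  classical
  obtain ⟨g, hg⟩ := specAt_flag (u := Units.map (E : MK ℂ →* R) (Lu ℂ)) (ε := ε)
    (Lu ℂ) E rfl h1 hu ν N S hS hZ
  set h : Polynomial ℂ := ∏ i ∈ S.filter (fun i => 0 < N i),
    Pool.Agent.H59UC.lin (N i) (ν i) with hdef
  have hh : h ≠ 0 := by
    rw [hdef]
    refine Finset.prod_ne_zero_iff.2 fun i hi => ?_
    exact Pool.Agent.H59UC.lin_ne (hS i (Finset.mem_filter.1 hi).2).2
  have hhs : ∀ s : ℕ, h.eval (s : ℂ) ≠ 0 := by
    intro s
    rw [hdef, Polynomial.eval_prod]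
    refine Finset.prod_ne_zero_iff.2 fun i hi => ?_
    have hν := (hS i (Finset.mem_filter.1 hi).2).2
    unfold Pool.Agent.H59UC.lin
    simp only [Polynomial.eval_add, Polynomial.eval_mul, Polynomial.eval_C, Polynomial.eval_X]
    have : 0 < N i * s + ν i := by omega
    exact_mod_cast this.ne'
  set Z : RatFunc ℂ := algebraMap (Polynomial ℂ) (RatFunc ℂ) g /
    algebraMap (Polynomial ℂ) (RatFunc ℂ) h with hZdef
  have h6 : algebraMap (Polynomial ℂ) (RatFunc ℂ) h ≠ 0 := by
    rw [Ne, map_eq_zero_iff _ (RatFunc.algebraMap_injective ℂ)]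
    exact hh
  have hnd : Z.num * h = g * Z.denom := by
    have h5 : algebraMap (Polynomial ℂ) (RatFunc ℂ) (Z.num * h) =
        algebraMap (Polynomial ℂ) (RatFunc ℂ) (g * Z.denom) := by
      have h7 : algebraMap (Polynomial ℂ) (RatFunc ℂ) Z.denom ≠ 0 := by
        rw [Ne, map_eq_zero_iff _ (RatFunc.algebraMap_injective ℂ)]
        exact Z.denom_ne_zero
      have h8 := RatFunc.num_div_denom Z
      rw [hZdef] at h8
      rw [← hZdef, div_eq_div_iff h7 h6] at h8
      rw [map_mul, map_mul]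
      exact h8
    exact RatFunc.algebraMap_injective ℂ h5
  refine ⟨Z, g, fun s hs => ?_, fun Z' hZ' => ?_, ?_⟩
  · obtain ⟨c, hc, hc'⟩ := hg s hs
    refine ⟨c, hc, ?_⟩
    have h5 := congrArg (Polynomial.eval (s : ℂ)) hnd
    rw [Polynomial.eval_mul, Polynomial.eval_mul, hc'] at h5
    have h7 : h.eval (s : ℂ) * (Z.num.eval (s : ℂ) - c * Z.denom.eval (s : ℂ)) = 0 := by
      linear_combination h5
    exact sub_eq_zero.1 ((mul_eq_zero.1 h7).resolve_left (hhs s))
  · have h5 : Z'.num * h = g * Z'.denom := by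
      refine poly_eq_of_nat fun s hs => ?_
      obtain ⟨c, hc, hc'⟩ := hg s hs
      obtain ⟨d, hd, hd'⟩ := hZ' s hs
      have h7 := specAt_unique hc hd
      subst h7
      rw [Polynomial.eval_mul, Polynomial.eval_mul, hc', hd']
      ring
    have h7 : algebraMap (Polynomial ℂ) (RatFunc ℂ) Z'.denom ≠ 0 := by
      rw [Ne, map_eq_zero_iff _ (RatFunc.algebraMap_injective ℂ)]
      exact Z'.denom_ne_zero
    rw [← RatFunc.num_div_denom Z', hZdef, div_eq_div_iff h7 h6, ← map_mul, ← map_mul, h5]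
  · rw [hZdef, div_mul_cancel₀ _ h6]

end Pool.Agent.H59UC.Flag
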